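import Mathlib
import Pool.Agent.Q212.ND.CX

/-!
# The Riemann hypothesis for `Δ` and the exponentials of the sums over prime powers at the centre `s = 6`

Let `τ` be Ramanujan's function, `α_p, β_p` the roots of `X² - τ(p) X + p^11`, and

  `P*(y) = exp (- ∑_{p^k ≤ y} (α_p^k + β_p^k) / (k p^(6k)))`,

the sum over the prime powers up to `y`; formally `P*(∞) = 1 / L(6, Δ)`. We prove, without any hypothesis (Deligne's
bound is not used either), that for every `0 < δ < 1` the following are equivalent: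

1. all zeros of `Ξ_Δ` are real;
2. `∫_1^∞ (log (L(6, Δ) P*(e^u)))² du < ∞`;
3. `∫ |log (L(6, Δ) P*(y))| dy/y ≤ ε log Y` over the window `[Y^(1-δ), Y]`, for every `ε > 0` and all large `Y`;
4. for some `κ, C, B` there are arbitrarily large `Y` with `∫ max (log P*(y) - κ log log y - C, 0) dy/y ≤ B log Y` over the
   window `[Y^(1-δ), Y]`;
5. the same for `- log P*(y)`.

So a bound from one side, up to any power of the logarithm, in the mean, on one sequence of windows, as sparse as we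
like, gives the convergence of `P*` to `1 / L(6, Δ)` in `L²(dy/y)`. Moreover, in the mean over EVERY window `[Y^(1-δ), Y]`
with large `Y`, the products exceed every `1/A < 1/L(6, Δ)` and are below every `1/A > 1/L(6, Δ)`.

The proof: the Euler product with its logarithm, absolute convergence for `Re s > 13/2` (Rankin-Selberg bound), the
continuation of `L(s, Δ)`, polynomial growth and positivity on the real axis are proved; then we apply helper18's
theorems for the general Dirichlet series (`Pool.Agent.Q18.W.Gd`) and the mean square theorem of the starting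
development (`Pool.Agent.TH270.MS.Cn.sq`).
-/

set_option autoImplicit false

namespace Pool.Agent.Results.MP_cd509c_nt.CentralEulerProducts

open Filter Topology Set Complex MeasureTheory
open Pool.Agent.Q212.ND
open Pool.Agent.H128R3.JD.DelHk (hk)

theorem series {τ : ℕ → ℝ} (hτ : IsTau τ) {B : ℝ} (hB : Pool.Agent.H471R3.GJ.IsHk (hk B)) {s : ℂ} (hs : 13 / 2 < s.re) :
    LD B s = ∑' n : ℕ, (τ n : ℂ) * (n : ℂ) ^ (-s) := by
  have hs' : 1 < (s - ((11 / 2 : ℝ) : ℂ)).re := by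
    rw [Complex.sub_re, Complex.ofReal_re]
    linarith
  unfold LD
  rw [ls_eq hB rfl (nrm_delta B) dat_delta hs']
  refine tsum_congr fun n => ?_
  rw [tau_lm hτ]
  rcases Nat.eq_zero_or_pos n with rfl | hn
  · have h1 : -(s - ((11 / 2 : ℝ) : ℂ)) ≠ 0 := by
      intro h
      have := congrArg Complex.re h
      rw [Complex.neg_re, Complex.zero_re] at this
      linarith
    have h2 : -s ≠ 0 := by
      intro h
      have := congrArg Complex.re h
      rw [Complex.neg_re, Complex.zero_re] at this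
      linarith
    simp only [Nat.cast_zero]
    rw [Complex.zero_cpow h1, Complex.zero_cpow h2, mul_zero, mul_zero]
  · have hn0 : (0 : ℝ) < n := by exact_mod_cast hn
    have hnc : (n : ℂ) ≠ 0 := by exact_mod_cast hn.ne'
    have e1 : (n : ℂ) ^ (-(s - ((11 / 2 : ℝ) : ℂ))) = (n : ℂ) ^ (-s) * (((n : ℝ) ^ (11 / 2 : ℝ) : ℝ) : ℂ) := by
      rw [neg_sub, sub_eq_neg_add, Complex.cpow_add _ _ hnc, Complex.ofReal_cpow hn0.le, Complex.ofReal_natCast]
    have e2 : (((n : ℝ) ^ (11 / 2 : ℝ) : ℝ) : ℂ) ≠ 0 := by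
      exact_mod_cast (Real.rpow_pos_of_pos hn0 _).ne'
    rw [e1, Complex.ofReal_div]
    field_simp

/-- **The Riemann hypothesis for `Δ` from the sums over prime powers at the centre.** `IsTau τ`:
`∑ τ(n) r^n = r ∏ (1 - r^n)^24` for `0 < r < 1`. `PS τ y = P*(y)`. `Xi z` is the Mellin transform of `y ↦ Δ(iy)` at
`6 + iz`. `central = (2π)^6 Re Ξ_Δ(0) / 120 = L(6, Δ)`. `Mean δ G B Y`: `∫_{Y^(1-δ)}^Y G(y) dy/y ≤ B log Y`. -/
theorem result :
    (∃! τ : ℕ → ℝ, IsTau τ) ∧
    ∀ τ : ℕ → ℝ, IsTau τ →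
      (∃ F : ℂ → ℂ, Differentiable ℂ F ∧ (∀ s : ℂ, 13 / 2 < s.re → F s = ∑' n : ℕ, (τ n : ℂ) * (n : ℂ) ^ (-s)) ∧
        F 6 = (central : ℂ)) ∧ 0 < central ∧
      ∀ δ : ℝ, 0 < δ → δ < 1 →
        List.TFAE [
          ∀ z : ℂ, Xi z = 0 → z.im = 0,
          IntegrableOn (fun u : ℝ => Real.log (central * PS τ (Real.exp u)) ^ 2) (Ioi 1),
          ∀ ε : ℝ, 0 < ε → ∀ᶠ Y : ℝ in atTop, Mean δ (fun y => |Real.log (central * PS τ y)|) ε Y,
          ∃ κ C B : ℝ, ∃ᶠ Y : ℝ in atTop,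
            Mean δ (fun y => max (Real.log (PS τ y) - (κ * Real.log (Real.log y) + C)) 0) B Y,
          ∃ κ C B : ℝ, ∃ᶠ Y : ℝ in atTop,
            Mean δ (fun y => max (-Real.log (PS τ y) - (κ * Real.log (Real.log y) + C)) 0) B Y] ∧
        (∀ A : ℝ, central < A → ∃ β : ℝ, 0 < β ∧
          ∀ᶠ Y : ℝ in atTop, ¬ Mean δ (fun y => max (Real.log (A * PS τ y)) 0) β Y) ∧
        (∀ A : ℝ, 0 < A → A < central → ∃ β : ℝ, 0 < β ∧
          ∀ᶠ Y : ℝ in atTop, ¬ Mean δ (fun y => max (-Real.log (A * PS τ y)) 0) β Y) := by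
  refine ⟨⟨_, isTau_delta, fun τ h => isTau_unique h isTau_delta⟩, fun τ hτ => ?_⟩
  obtain ⟨B₀, hB⟩ := Pool.Agent.H128R3.JD.DelHk.isHk
  refine ⟨⟨LD B₀, ?_, fun s hs => series hτ hB hs, central_eq B₀⟩, central_pos, fun δ h0 h1 => ⟨?_, ?_, ?_⟩⟩
  · have h1 : Differentiable ℂ fun s : ℂ => s - ((11 / 2 : ℝ) : ℂ) := by fun_prop
    exact (ls_diff hB).comp h1
  · tfae_have 1 → 2 := fun h => l2 hτ hB ((rh_iff' B₀).2 h)
    tfae_have 2 → 3 := fun h ε hε => lim_mean hτ h h0 h1 hε
    tfae_have 3 → 4 := fun h => ⟨0, -Real.log central, 1, up_of hτ h0 h1 (h 1 one_pos).frequently⟩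
    tfae_have 3 → 5 := fun h => ⟨0, Real.log central, 1, dn_of hτ h0 h1 (h 1 one_pos).frequently⟩
    tfae_have 4 → 1 := by
      rintro ⟨κ, C, B, h⟩
      exact (rh_iff' B₀).1 (up hτ hB h0 h1 h)
    tfae_have 5 → 1 := by
      rintro ⟨κ, C, B, h⟩
      exact (rh_iff' B₀).1 (dn hτ hB h0 h1 h)
    tfae_finish
  · exact fun A hA => om_up hτ hB h0 h1 hA
  · exact fun A hA0 hA => om_dn hτ hB h0 h1 hA0 hA

end Pool.Agent.Results.MP_cd509c_nt.CentralEulerProducts
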