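import Pool.Agent.Q168.RX.Lag

/-!
# Laguerre inequalities for the Ramanujan Xi function

For real `x` the function `y ↦ |Ξ_Δ(x + i y)|²` is even and real analytic; `L n x` is the coefficient of
`y^(2n)` of its power series. All zeros of `Ξ_Δ` are real if and only if `L n x ≥ 0` for all `n`, `x`.

**Theorem.** For every `η > 0` there is a `C` such that `L n x > 0` for all real `x` and all
`n ≥ (1/2 + η) log (1 + |x|) + C`, and all zeros of `Ξ_Δ` are real if and only if `L n x ≥ 0` for the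
remaining pairs `n`, `x`. If `|im z| ≤ ϑ` for all zeros `z` of `Ξ_Δ`, then `1/2` can be replaced by `ϑ`.
-/

set_option autoImplicit false

namespace Pool.Agent.Results.MP_cd509c_nt.LaguerreInequalities

/-- `Δ(i y) = e^(-2πy) ∏_{n ≥ 1} (1 - e^(-2πny))^24`, the modular discriminant on the imaginary axis
(the function of the frozen statement S18517). -/
noncomputable def delta (y : ℝ) : ℝ :=
  Real.exp (-2 * Real.pi * y) * ∏' n : ℕ, (1 - Real.exp (-2 * Real.pi * ((n : ℝ) + 1) * y)) ^ 24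

/-- The completed L-function `Λ(s) = ∫_0^∞ Δ(i y) y^(s-1) dy = (2π)^(-s) Γ(s) L(s, Δ)`, an entire
function with `Λ(12 - s) = Λ(s)`. -/
noncomputable def Lam (s : ℂ) : ℂ := mellin (fun y : ℝ => ((delta y : ℝ) : ℂ)) s

/-- The Ramanujan Xi function `Ξ_Δ(z) = Λ(6 + i z)`. -/
noncomputable def Xi (z : ℂ) : ℂ := Lam (6 + Complex.I * z)

/-- `L n x`, the coefficient of `y^(2n)` of `|Ξ_Δ(x + i y)|²`. -/
noncomputable def L (n : ℕ) (x : ℝ) : ℝ :=
  iteratedDeriv (2 * n) (fun y : ℝ => ‖Xi (x + y * Complex.I)‖ ^ 2) 0 / ((2 * n).factorial : ℝ)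

/-- **Laguerre inequalities for the Ramanujan Xi function.** -/
theorem result :
    (∀ x y : ℝ, HasSum (fun n : ℕ => L n x * y ^ (2 * n)) (‖Xi (x + y * Complex.I)‖ ^ 2)) ∧
    (∀ η : ℝ, 0 < η → ∃ C : ℝ, 0 < C ∧
      (∀ (n : ℕ) (x : ℝ), (1 / 2 + η) * Real.log (1 + |x|) + C ≤ n → 0 < L n x) ∧
      ((∀ z : ℂ, Xi z = 0 → z.im = 0) ↔
        ∀ (n : ℕ) (x : ℝ), (n : ℝ) < (1 / 2 + η) * Real.log (1 + |x|) + C → 0 ≤ L n x)) ∧
    (∀ η ϑ : ℝ, 0 < η → 0 ≤ ϑ → ϑ ≤ 1 / 2 → (∀ z : ℂ, Xi z = 0 → |z.im| ≤ ϑ) →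
      ∃ C : ℝ, ∀ (n : ℕ) (x : ℝ), (ϑ + η) * Real.log (1 + |x|) + C ≤ n → 0 < L n x) :=
  Pool.Agent.Q168.RX.lag (N := 1) (k := 12) (by norm_num) Pool.Agent.Y771.NF.newf_delta Xi fun z => by
    have h1 : Pool.Agent.Y771.NF.Lam (N := 1) (k := 12) Pool.Agent.W97.TW.deltaForm = Lam :=
      funext fun s => Pool.Agent.Y771.NF.Lam_delta s
    have h : (((12 : ℕ) : ℂ)) / 2 = 6 := by norm_num
    rw [h1, h]
    rfl

end Pool.Agent.Results.MP_cd509c_nt.LaguerreInequalities
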