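import Mathlib
import Pool.Agent.Q212.ND.Win

/-!
# The Riemann hypothesis for `Δ` from one-sided bounds for `∑_{p ≤ x} τ(p) p^(-11/2)` on sparse windows

Let `τ` be Ramanujan's function and `P(x) = ∑_{p ≤ x} τ(p) p^(-11/2)`, the sum over the primes. The Riemann hypothesis
for `L(s, Δ)` predicts that `P(x)` is about as large as `√x`. We prove, for all `c ≥ 1/2` and `δ > 0`:

* If there are arbitrarily large `X` such that `P(x) > -x^c` for all `x` in `[X^{1-δ}, X]`, or `P(x) < x^c` for all `x` in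
  `[X^{1-δ}, X]` (one bound, from one side, on one sequence of windows which may be as sparse as we like), then all zeros
  of `Ξ_Δ` satisfy `|Im z| ≤ c - 1/2`. Equivalently: if `Ξ_Δ(z₀) = 0` and `c < 1/2 + |Im z₀|`, every interval
  `[X^{1-δ}, X]` with `X` large contains `x` with `P(x) ≤ -x^c` and `x'` with `P(x') ≥ x'^c`.
* All zeros of `Ξ_Δ` are real if for every `c > 1/2` there are `δ > 0` and arbitrarily large `X` with one of these
  two one-sided bounds on `[X^{1-δ}, X]`.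

In the classical theorem of Landau the one-sided bound is needed for ALL large `x`.

The proof: all properties of `L(s, Δ)` that are needed are proved here: the Euler product (Mordell), the
Rankin-Selberg bound `∑ τ(n)² n^{-11-σ} < ∞` for `σ > 1` (which gives absolute convergence of the logarithm of the Euler
product and of its prime squares and higher powers to the right of `1/2`; Deligne's bound is not used), continuation,
functional equation, polynomial growth, and `Λ(s) > 0` on the real axis. Then we apply helper18's theorem on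
standard L-functions (`Pool.Agent.Q18.LF.Aut`), in which the average of the summatory function of the coefficients
of `-log F` against a Gaussian centred at `Y` of width about `√Y` is compared at a real and at a nonreal point.
-/

set_option autoImplicit false

namespace Pool.Agent.Results.MP_cd509c_nt.OneSidedWindows

open Pool.Agent.Q212.ND

/-- **One-sided bounds on one sequence of windows and the zeros of `Ξ_Δ`.** `IsTau τ`: `∑ τ(n) r^n = r ∏ (1 - r^n)^24` for
`0 < r < 1`. `Pt τ x = ∑_{p ≤ x} τ(p) p^(-11/2)`. `Xi z` is the Mellin transform of `y ↦ Δ(iy)` at `6 + iz`. -/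
theorem result :
    (∃! τ : ℕ → ℝ, IsTau τ) ∧
    ∀ τ : ℕ → ℝ, IsTau τ →
      (∀ c δ : ℝ, 1 / 2 ≤ c → 0 < δ →
        (∀ X₀ : ℝ, ∃ X : ℝ, X₀ ≤ X ∧ ((∀ x : ℝ, X ^ (1 - δ) ≤ x → x ≤ X → -x ^ c < Pt τ x) ∨
          (∀ x : ℝ, X ^ (1 - δ) ≤ x → x ≤ X → Pt τ x < x ^ c))) →
        ∀ z : ℂ, Xi z = 0 → |z.im| ≤ c - 1 / 2) ∧
      ((∀ c : ℝ, 1 / 2 < c → ∃ δ : ℝ, 0 < δ ∧
        ∀ X₀ : ℝ, ∃ X : ℝ, X₀ ≤ X ∧ ((∀ x : ℝ, X ^ (1 - δ) ≤ x → x ≤ X → -x ^ c < Pt τ x) ∨
          (∀ x : ℝ, X ^ (1 - δ) ≤ x → x ≤ X → Pt τ x < x ^ c))) →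
        ∀ z : ℂ, Xi z = 0 → z.im = 0) := by
  refine ⟨⟨_, isTau_delta, fun τ h => isTau_unique h isTau_delta⟩, fun τ hτ => ?_⟩
  have key : ∀ c δ : ℝ, 1 / 2 ≤ c → 0 < δ →
        (∀ X₀ : ℝ, ∃ X : ℝ, X₀ ≤ X ∧ ((∀ x : ℝ, X ^ (1 - δ) ≤ x → x ≤ X → -x ^ c < Pt τ x) ∨
          (∀ x : ℝ, X ^ (1 - δ) ≤ x → x ≤ X → Pt τ x < x ^ c))) →
        ∀ z : ℂ, Xi z = 0 → |z.im| ≤ c - 1 / 2 := by
    intro c δ hc hδ hX z hz
    by_contra hcon
    rw [not_le] at hcon
    obtain ⟨h1, h2⟩ := osc hτ hc hδ hcon hz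
    obtain ⟨X₀, hX₀⟩ := Filter.eventually_atTop.1 (h1.and h2)
    obtain ⟨X, hX1, hX2⟩ := hX X₀
    obtain ⟨⟨x, a1, a2, a3⟩, ⟨y, b1, b2, b3⟩⟩ := hX₀ X hX1
    rcases hX2 with h | h
    · exact absurd (h x a1 a2) (not_lt.2 a3)
    · exact absurd (h y b1 b2) (not_lt.2 b3)
  refine ⟨key, fun h z hz => ?_⟩
  by_contra him
  have hpos : 0 < |z.im| := abs_pos.2 him
  obtain ⟨δ, hδ, hX⟩ := h (1 / 2 + |z.im| / 2) (by linarith)
  have := key _ δ (by linarith) hδ hX z hz
  linarith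

end Pool.Agent.Results.MP_cd509c_nt.OneSidedWindows
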