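import Pool.Agent.Q168.RX.Heat

/-!
# Derivatives of the heat flow of the Ramanujan Xi function

Let `Ξ_t(z) = Λ_t(6 + i z)`, where `Λ_t = exp (t D²) Λ`, `D = d/ds`, is the heat flow of the completed
L-function of `Δ`, and let `ℓ(x) = 1 + log (1 + |x|)`.

**Theorem.** There is a `C` such that for all `n ≥ 0` and `t ≥ 0` all zeros `z` of the `n`-th derivative
of `Ξ_t` with `C ℓ(re z) ≤ n + t ℓ(re z)²` are real and simple; all its zeros are real and simple if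
`n t ≥ C`; and all zeros of `Ξ_Δ` are real if and only if all zeros of all derivatives of all `Ξ_t`,
`t > 0`, in the remaining region `n + t ℓ(re z)² < C ℓ(re z)` are real. For every `η > 0` the zeros of
`Ξ_t` with `2 t log |re z| ≥ 1 + η` and large `|re z|` are real.
-/

set_option autoImplicit false

namespace Pool.Agent.Results.MP_cd509c_nt.UniformHeatDerivatives

/-- `Δ(i y) = e^(-2πy) ∏_{n ≥ 1} (1 - e^(-2πny))^24`, the modular discriminant on the imaginary axis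
(the function of the frozen statement S18517). -/
noncomputable def delta (y : ℝ) : ℝ :=
  Real.exp (-2 * Real.pi * y) * ∏' n : ℕ, (1 - Real.exp (-2 * Real.pi * ((n : ℝ) + 1) * y)) ^ 24

/-- The completed L-function `Λ(s) = ∫_0^∞ Δ(i y) y^(s-1) dy = (2π)^(-s) Γ(s) L(s, Δ)`, an entire
function with `Λ(12 - s) = Λ(s)`. -/
noncomputable def Lam (s : ℂ) : ℂ := mellin (fun y : ℝ => ((delta y : ℝ) : ℂ)) s

/-- The heat flow `Λ_t = e^{t D²} Λ` (`D = d/ds`) as a Gaussian average: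
`Λ_t(s) = π^(-1/2) ∫ exp (-v²) Λ(s + 2 √t v) dv`. -/
noncomputable def heat (t : ℝ) (Λ : ℂ → ℂ) (s : ℂ) : ℂ :=
  ((1 / Real.sqrt Real.pi : ℝ) : ℂ) *
    ∫ v : ℝ, ((Real.exp (-v ^ 2) : ℝ) : ℂ) * Λ (s + ((2 * Real.sqrt t * v : ℝ) : ℂ))

/-- `Ξ_t(z) = Λ_t(6 + i z)`; `Ξ_0` is the Ramanujan Xi function. -/
noncomputable def Xi (t : ℝ) (z : ℂ) : ℂ := heat t Lam (6 + Complex.I * z)

/-- `ℓ(x) = 1 + log (1 + |x|)`. -/
noncomputable def el (x : ℝ) : ℝ := 1 + Real.log (1 + |x|)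

/-- **Derivatives of the heat flow of the Ramanujan Xi function.** -/
theorem result :
    (∃ C : ℝ, 0 < C ∧
      (∀ (n : ℕ) (t : ℝ) (z : ℂ), 0 ≤ t → C * el z.re ≤ n + t * el z.re ^ 2 →
        iteratedDeriv n (Xi t) z = 0 → z.im = 0 ∧ iteratedDeriv (n + 1) (Xi t) z ≠ 0) ∧
      (∀ (n : ℕ) (t : ℝ), 0 ≤ t → C ≤ n * t → ∀ z : ℂ,
        iteratedDeriv n (Xi t) z = 0 → z.im = 0 ∧ iteratedDeriv (n + 1) (Xi t) z ≠ 0) ∧
      ((∀ z : ℂ, Xi 0 z = 0 → z.im = 0) ↔ ∀ (n : ℕ) (t : ℝ) (z : ℂ), 0 < t →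
        n + t * el z.re ^ 2 < C * el z.re → iteratedDeriv n (Xi t) z = 0 → z.im = 0)) ∧
    (∀ η : ℝ, 0 < η → ∃ x₀ : ℝ, 1 ≤ x₀ ∧ ∀ (t : ℝ) (z : ℂ), 0 < t → x₀ ≤ |z.re| →
      1 + η ≤ 2 * t * Real.log |z.re| → Xi t z = 0 → z.im = 0) :=
  Pool.Agent.Q168.RX.heatn (N := 1) (k := 12) (by norm_num) Pool.Agent.Y771.NF.newf_delta Xi
    fun t z => by
      have h1 : Pool.Agent.Y771.NF.Lam (N := 1) (k := 12) Pool.Agent.W97.TW.deltaForm = Lam :=
        funext fun s => Pool.Agent.Y771.NF.Lam_delta s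
      have h : (((12 : ℕ) : ℂ)) / 2 = 6 := by norm_num
      rw [h1, h]
      rfl

end Pool.Agent.Results.MP_cd509c_nt.UniformHeatDerivatives
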